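import Pool.Agent.W345.GK.Inf

/-! Project GK, I5: the finite exponentials converge. -/

set_option autoImplicit false
set_option linter.unusedSectionVars false

open Polynomial Finset

namespace Pool.Agent.W672.GK

open Pool.Agent.W345.GK

section

variable {F : Type} [Field F]

/-- order at least `m` -/
def Ge (m : ℤ) (f : LS F) : Prop := ∀ j < m, f.coeff j = 0

theorem ge_iff (m : ℤ) (f : LS F) : Ge m f ↔ f = 0 ∨ m ≤ f.order := by
  constructor
  · intro h
    by_cases hf : f = 0
    · exact Or.inl hf
    · right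
      by_contra hc
      push Not at hc
      exact hf (HahnSeries.coeff_order_eq_zero.1 (h _ hc))
  · rintro (h | h) j hj
    · rw [h]; rfl
    · exact HahnSeries.coeff_eq_zero_of_lt_order (lt_of_lt_of_le hj h)

theorem Ge.mul {m n : ℤ} {f g : LS F} (hf : Ge m f) (hg : Ge n g) : Ge (m + n) (f * g) := by
  by_cases h1 : f = 0
  · rw [ge_iff, h1, zero_mul]
    exact Or.inl rfl
  by_cases h2 : g = 0
  · rw [ge_iff, h2, mul_zero]
    exact Or.inl rfl
  rw [ge_iff] at hf hg ⊢
  right
  rw [HahnSeries.order_mul h1 h2]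
  have h3 := hf.resolve_left h1
  have h4 := hg.resolve_left h2
  linarith

theorem Ge.add {m : ℤ} {f g : LS F} (hf : Ge m f) (hg : Ge m g) : Ge m (f + g) := by
  intro j hj
  rw [HahnSeries.coeff_add, hf j hj, hg j hj, add_zero]

theorem Ge.neg {m : ℤ} {f : LS F} (hf : Ge m f) : Ge m (-f) := by
  intro j hj
  rw [HahnSeries.coeff_neg, hf j hj, neg_zero]

theorem Ge.mono {m n : ℤ} {f : LS F} (hf : Ge m f) (h : n ≤ m) : Ge n f :=
  fun j hj => hf j (lt_of_lt_of_le hj h)

theorem ge_zero (m : ℤ) : Ge m (0 : LS F) := fun _ _ => rfl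

theorem ge_prod {ι : Type} (s : Finset ι) (a : ι → LS F) (w : ℤ) (hw : 0 ≤ w)
    (h : ∀ b ∈ s, Ge w (a b)) : Ge w (∏ b ∈ s, (1 - a b) - 1) := by
  classical
  induction s using Finset.induction_on with
  | empty => simpa using ge_zero w
  | insert b s hb ih =>
    rw [Finset.prod_insert hb]
    have h1 := ih fun c hc => h c (Finset.mem_insert_of_mem hc)
    have h2 := h b (Finset.mem_insert_self b s)
    have h3 : (1 - a b) * ∏ x ∈ s, (1 - a x) - 1 =
        (∏ x ∈ s, (1 - a x) - 1) + (-(a b) + -(a b * (∏ x ∈ s, (1 - a x) - 1))) := by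
      ring
    rw [h3]
    exact h1.add (h2.neg.add ((h2.mul h1).mono (by linarith)).neg)

end

section

variable {k F : Type} [Field k] [Fintype k] [Field F] [Algebra k F]

theorem iA_apply (a : k[X]) : (iA a : LS F) = iF (Fintype.card k) (a.map (algebraMap k F)) := rfl

theorem iA_inj (h1 : S_I1) : Function.Injective (iA : k[X] →+* LS F) := by
  intro a b hab
  rw [iA_apply, iA_apply] at hab
  exact Polynomial.map_injective _ (algebraMap k F).injective ((h1 k F).1 hab)

theorem pol_coeff {N : ℕ} (c : Fin N → k) (j : ℕ) :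
    (pol c).coeff j = if h : j < N then c ⟨j, h⟩ else 0 := by
  unfold pol
  rw [Polynomial.finsetSum_coeff]
  simp only [Polynomial.coeff_C_mul, Polynomial.coeff_X_pow]
  split_ifs with h
  · rw [Finset.sum_eq_single ⟨j, h⟩]
    · simp
    · intro b _ hb
      have : j ≠ (b : ℕ) := fun h' => hb (Fin.ext h'.symm)
      simp [this]
    · intro h'
      exact (h' (Finset.mem_univ _)).elim
  · apply Finset.sum_eq_zero
    intro b _
    have : j ≠ (b : ℕ) := by
      have := b.2
      omega
    simp [this]

theorem pol_surj {N : ℕ} (a : k[X]) (h : a.natDegree < N) :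
    a = pol (fun i : Fin N => a.coeff i) := by
  ext j
  rw [pol_coeff]
  split_ifs with hj
  · rfl
  · exact Polynomial.coeff_eq_zero_of_natDegree_lt (by omega)

theorem pol_natDegree {N : ℕ} (c : Fin (N + 1) → k) (h : c (Fin.last N) ≠ 0) :
    (pol c).natDegree = N := by
  apply Polynomial.natDegree_eq_of_le_of_coeff_ne_zero
  · rw [Polynomial.natDegree_le_iff_coeff_eq_zero]
    intro j hj
    rw [pol_coeff, dif_neg (by omega)]
  · rw [pol_coeff, dif_pos (Nat.lt_succ_self N)]
    exact h

theorem pol_snoc {N : ℕ} (c : Fin N → k) :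
    pol (Fin.snoc (α := fun _ => k) c 0 : Fin (N + 1) → k) = pol c := by
  unfold pol
  rw [Fin.sum_univ_castSucc]
  simp

theorem eps_succ {E : Type} [Field E] (φ : k[X] →+* E) (N : ℕ) (z : E) :
    ∃ s : Finset (Fin (N + 1) → k), (∀ b ∈ s, b (Fin.last N) ≠ 0) ∧
      eps φ (N + 1) z = eps φ N z * ∏ b ∈ s, (1 - z / φ (pol b)) := by
  classical
  refine ⟨(univ.filter (fun b : Fin (N + 1) → k => b ≠ 0)).filter
    (fun b => ¬ b (Fin.last N) = 0), fun b hb => (Finset.mem_filter.1 hb).2, ?_⟩
  unfold eps
  rw [mul_assoc]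
  congr 1
  rw [← Finset.prod_filter_mul_prod_filter_not _ (fun b => b (Fin.last N) = 0)]
  congr 1
  · refine Finset.prod_bij' (fun b _ => Fin.init b)
      (fun b _ => (Fin.snoc (α := fun _ => k) b 0 : Fin (N + 1) → k)) ?_ ?_ ?_ ?_ ?_
    · intro b hb
      rw [Finset.mem_filter, Finset.mem_filter] at hb
      rw [Finset.mem_filter]
      refine ⟨Finset.mem_univ _, fun h => hb.1.2 ?_⟩
      funext i
      refine Fin.lastCases ?_ (fun j => ?_) i
      · exact hb.2
      · exact congrFun h j
    · intro b hb
      rw [Finset.mem_filter] at hb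
      rw [Finset.mem_filter, Finset.mem_filter]
      refine ⟨⟨Finset.mem_univ _, fun h => hb.2 ?_⟩, by simp⟩
      funext i
      have := congrFun h i.castSucc
      simpa using this
    · intro b hb
      rw [Finset.mem_filter, Finset.mem_filter] at hb
      funext i
      refine Fin.lastCases ?_ (fun j => ?_) i
      · simp [hb.2]
      · simp [Fin.init]
    · intro b hb
      funext i
      simp [Fin.init]
    · intro b hb
      rw [Finset.mem_filter, Finset.mem_filter] at hb
      have h1 : b = (Fin.snoc (α := fun _ => k) (Fin.init b) 0 : Fin (N + 1) → k) := by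
        funext i
        refine Fin.lastCases ?_ (fun j => ?_) i
        · simp [hb.2]
        · simp [Fin.init]
      conv_lhs => rw [h1, pol_snoc]

/-- the ring homomorphism on Laurent series -/
noncomputable def mu (k F : Type) [Field k] [Field F] [Algebra k F] : LS k →+* LS F where
  toFun f := f.map (algebraMap k F)
  map_one' := HahnSeries.map_one (algebraMap k F).toMonoidWithZeroHom
  map_mul' _ _ := HahnSeries.map_mul (algebraMap k F : k →ₙ+* F)
  map_zero' := HahnSeries.map_zero (algebraMap k F : ZeroHom k F)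
  map_add' _ _ := HahnSeries.map_add (algebraMap k F : k →+ F)

theorem kr_iff (f : LS F) : KR k f ↔ f ∈ (mu k F).fieldRange := by
  rw [RingHom.mem_fieldRange]
  constructor
  · intro h
    choose g hg using h
    classical
    refine ⟨⟨fun j => if f.coeff j = 0 then 0 else g j, ?_⟩, ?_⟩
    · refine f.isPWO_support.mono fun j hj => ?_
      rw [Function.mem_support] at hj
      rw [HahnSeries.mem_support]
      intro h0
      exact hj (if_pos h0)
    · ext j
      show algebraMap k F (if f.coeff j = 0 then 0 else g j) = f.coeff j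
      split_ifs with h0
      · rw [map_zero, h0]
      · exact hg j
  · rintro ⟨g, rfl⟩ j
    exact ⟨g.coeff j, rfl⟩

theorem kr_iA (a : k[X]) : KR k (iA a : LS F) := by
  rw [kr_iff]
  induction a using Polynomial.induction_on' with
  | add p q hp hq =>
    rw [map_add]
    exact add_mem hp hq
  | monomial n c =>
    rw [← Polynomial.C_mul_X_pow_eq_monomial, map_mul, map_pow]
    refine mul_mem ?_ (pow_mem ?_ n)
    · rw [← kr_iff, iA_apply]
      intro j
      rw [Polynomial.map_C, iF, Polynomial.aeval_C]
      refine ⟨(HahnSeries.C c : LS k).coeff j, ?_⟩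
      have h1 : (algebraMap F (LS F)) ((algebraMap k F) c) = HahnSeries.C ((algebraMap k F) c) := by
        rw [HahnSeries.algebraMap_apply', ← HahnSeries.ofPowerSeries_C]
        rfl
      rw [h1, HahnSeries.C_apply, HahnSeries.C_apply]
      by_cases hj : j = 0
      · rw [hj, HahnSeries.coeff_single_same, HahnSeries.coeff_single_same]
      · rw [HahnSeries.coeff_single_of_ne hj, HahnSeries.coeff_single_of_ne hj, map_zero]
    · rw [← kr_iff, iA_apply]
      intro j
      rw [Polynomial.map_X, iF, Polynomial.aeval_X, TT]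
      by_cases hj : j = 1 - (Fintype.card k : ℤ)
      · refine ⟨-1, ?_⟩
        rw [hj, HahnSeries.coeff_single_same, map_neg, map_one]
      · refine ⟨0, ?_⟩
        rw [HahnSeries.coeff_single_of_ne hj, map_zero]

theorem kr_eps (N : ℕ) (z : LS F) (hz : KR k z) : KR k (eps (iA : k[X] →+* LS F) N z) := by
  classical
  rw [kr_iff] at hz ⊢
  unfold eps
  refine mul_mem hz (prod_mem fun b _ => ?_)
  exact sub_mem (one_mem _) (div_mem hz ((kr_iff _).1 (kr_iA (pol b))))

end

theorem i5 : S_I1 → S_I3 → S_I5 := by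
  intro h1 h3 k F _ _ _ _ z
  classical
  have hinj : Function.Injective (iA : k[X] →+* LS F) := iA_inj h1
  by_cases hz : ∃ a : k[X], z = iA a
  · obtain ⟨a, ha⟩ := hz
    have hev : ∀ N ≥ a.natDegree + 1, (0 : LS F) = eps (iA : k[X] →+* LS F) N z := by
      intro N hN
      unfold eps
      by_cases ha0 : a = 0
      · rw [ha, ha0, map_zero, zero_mul]
      · symm
        apply mul_eq_zero_of_right
        apply Finset.prod_eq_zero (i := fun i : Fin N => a.coeff i)
        · rw [Finset.mem_filter]
          refine ⟨Finset.mem_univ _, fun h => ha0 ?_⟩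
          rw [pol_surj a (show a.natDegree < N by omega), h]
          simp [pol]
        · rw [← pol_surj a (show a.natDegree < N by omega), ha, div_self, sub_self]
          rw [Ne, map_eq_zero_iff _ hinj]
          exact ha0
    refine ⟨0, ?_, ⟨fun _ => ⟨a, ha⟩, fun _ => rfl⟩, fun _ j => ⟨0, by simp⟩⟩
    exact (h3 F).2.2.2.2.2.2.2 (fun _ => 0) _ 0 ⟨_, hev⟩ ⟨0, fun _ _ _ => rfl⟩
  · have hz0 : z ≠ 0 := fun h => hz ⟨0, by rw [h, map_zero]⟩
    push Not at hz
    have hq : 2 ≤ Fintype.card k := Fintype.one_lt_card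
    have hfne : ∀ N, eps (iA : k[X] →+* LS F) N z ≠ 0 := by
      intro N
      unfold eps
      refine mul_ne_zero hz0 (Finset.prod_ne_zero_iff.2 fun b hb h => ?_)
      rw [Finset.mem_filter] at hb
      have hb0 : (iA (pol b) : LS F) ≠ 0 := by
        rw [Ne, map_eq_zero_iff _ hinj]
        intro h'
        apply hb.2
        funext i
        have := congrArg (fun p => Polynomial.coeff p (i : ℕ)) h'
        simp only [pol_coeff, Fin.is_lt, dite_true, Polynomial.coeff_zero] at this
        exact this
      rw [sub_eq_zero, eq_comm, div_eq_iff hb0, one_mul] at h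
      exact hz _ h
    set v := z.order with hv
    have hord : ∀ (N : ℕ) (b : Fin (N + 1) → k), b (Fin.last N) ≠ 0 →
        Ge (v + N) (z / (iA (pol b) : LS F)) := by
      intro N b hb
      have hdeg := pol_natDegree b hb
      have hp0 : pol b ≠ 0 := by
        intro h
        have := pol_coeff b N
        rw [h, Polynomial.coeff_zero, dif_pos (Nat.lt_succ_self N)] at this
        exact hb this.symm
      have hm0 : (pol b).map (algebraMap k F) ≠ 0 :=
        (Polynomial.map_ne_zero_iff (algebraMap k F).injective).2 hp0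
      have h4 := (h1 k F).2.1 _ hm0
      rw [← iA_apply, Polynomial.natDegree_map, hdeg] at h4
      have hb0 : (iA (pol b) : LS F) ≠ 0 := by
        rw [Ne, map_eq_zero_iff _ hinj]
        exact hp0
      rw [ge_iff]
      right
      have h5 : (z / (iA (pol b) : LS F)) ≠ 0 := div_ne_zero hz0 hb0
      have h6 : (z / (iA (pol b) : LS F)).order + (iA (pol b) : LS F).order = v := by
        rw [← HahnSeries.order_mul h5 hb0, div_mul_cancel₀ _ hb0]
      rw [h4] at h6
      have h7 : (1 : ℤ) ≤ (Fintype.card k : ℤ) - 1 := by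
        have : (2 : ℤ) ≤ (Fintype.card k : ℤ) := by exact_mod_cast hq
        linarith
      nlinarith [Int.natCast_nonneg N]
    -- the index from which on everything is stable
    set N1 : ℕ := v.natAbs + 1 with hN1
    have hpos : ∀ N ≥ N1, 0 < v + (N : ℤ) := by
      intro N hN
      have h4 : (N1 : ℤ) ≤ N := by exact_mod_cast hN
      have h5 : (N1 : ℤ) = |v| + 1 := by rw [hN1]; push_cast; rfl
      have h6 := neg_abs_le v
      linarith
    have hstep : ∀ N ≥ N1, ∀ o : ℤ, Ge o (eps (iA : k[X] →+* LS F) N z) →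
        Ge (o + (v + N)) (eps (iA : k[X] →+* LS F) (N + 1) z - eps (iA : k[X] →+* LS F) N z) := by
      intro N hN o ho
      obtain ⟨s, hs, hes⟩ := eps_succ (iA : k[X] →+* LS F) N z
      rw [hes]
      have h4 : eps (iA : k[X] →+* LS F) N z * ∏ b ∈ s, (1 - z / (iA (pol b) : LS F)) -
          eps (iA : k[X] →+* LS F) N z =
          eps (iA : k[X] →+* LS F) N z * (∏ b ∈ s, (1 - z / (iA (pol b) : LS F)) - 1) := by
        ring
      rw [h4]
      exact ho.mul (ge_prod s _ _ (hpos N hN).le fun b hb => hord N b (hs b hb))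
    obtain ⟨o, ho⟩ : ∃ o, o = (eps (iA : k[X] →+* LS F) N1 z).order := ⟨_, rfl⟩
    have hstab : ∀ m : ℕ, Ge o (eps (iA : k[X] →+* LS F) (N1 + m) z) ∧
        (eps (iA : k[X] →+* LS F) (N1 + m) z).coeff o =
          (eps (iA : k[X] →+* LS F) N1 z).coeff o := by
      intro m
      induction m with
      | zero =>
        refine ⟨?_, rfl⟩
        rw [ge_iff]
        exact Or.inr (le_of_eq ho)
      | succ m ih =>
        have h4 := hstep (N1 + m) (by omega) o ih.1
        have h5 := hpos (N1 + m) (by omega)
        have h6 : eps (iA : k[X] →+* LS F) (N1 + (m + 1)) z =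
            (eps (iA : k[X] →+* LS F) (N1 + m + 1) z - eps (iA : k[X] →+* LS F) (N1 + m) z) +
              eps (iA : k[X] →+* LS F) (N1 + m) z := by
          rw [sub_add_cancel]
          rfl
        constructor
        · rw [h6]
          exact (h4.mono (by linarith)).add ih.1
        · rw [h6, HahnSeries.coeff_add, h4 o (by linarith), zero_add, ih.2]
    have hGe : ∀ N ≥ N1, Ge o (eps (iA : k[X] →+* LS F) N z) := by
      intro N hN
      have := (hstab (N - N1)).1
      rwa [Nat.add_sub_cancel' hN] at this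
    obtain ⟨g, hg⟩ := (h3 F).1 (fun N => eps (iA : k[X] →+* LS F) (max N N1) z)
      ⟨-(o + v), fun N j hj => by
        rcases le_or_gt N1 N with h | h
        · rw [max_eq_left h, max_eq_left (by omega)]
          have h4 := hstep N h o (hGe N h) j (by linarith)
          rw [HahnSeries.coeff_sub, sub_eq_zero] at h4
          exact h4
        · rw [max_eq_right h.le, max_eq_right (by omega)]⟩
    have hlim : Lim (fun N => eps (iA : k[X] →+* LS F) N z) g :=
      (h3 F).2.2.2.2.2.2.2 _ _ g ⟨N1, fun N hN => by rw [max_eq_left hN]⟩ hg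
    obtain ⟨C, hC⟩ := hlim
    refine ⟨g, ⟨C, hC⟩, ⟨fun h0 => ?_, fun h0 => ?_⟩, fun hK j => ?_⟩
    · exfalso
      obtain ⟨m, hm⟩ : ∃ m : ℕ, o < ((N1 + m : ℕ) : ℤ) - C := by
        refine ⟨(o + C).natAbs + 1, ?_⟩
        have h6 := le_abs_self (o + C)
        push_cast
        rw [Int.abs_eq_natAbs] at h6
        have : (0 : ℤ) ≤ N1 := Int.natCast_nonneg _
        rw [← Int.abs_eq_natAbs] at h6
        linarith
      have h4 := hC (N1 + m) o hm
      have h5 := (hstab m).2
      simp only at h4
      rw [h5, h0] at h4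
      have h6 : (eps (iA : k[X] →+* LS F) N1 z).coeff o = 0 := h4
      rw [ho, HahnSeries.coeff_order_eq_zero] at h6
      exact hfne N1 h6
    · obtain ⟨a, ha⟩ := h0
      exact (hz a ha).elim
    · obtain ⟨N, hN⟩ : ∃ N : ℕ, j < (N : ℤ) - C := by
        refine ⟨(j + C).natAbs + 1, ?_⟩
        have h6 := le_abs_self (j + C)
        push_cast
        linarith
      rw [← hC N j hN]
      exact kr_eps N z hK j

end Pool.Agent.W672.GK
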