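import Pool.Agent.W672.GK.I5

/-! Project GK, I6: the expansion of `c'/c` at infinity. -/

set_option autoImplicit false
set_option linter.unusedSectionVars false

open Polynomial Finset

namespace Pool.Agent.W672.GK

open Pool.Agent.W345.GK

section comp

variable {k : Type} [Field k] [Fintype k]

/-- the unit vectors -/
def ev (n : ℕ) (j : ℕ) : Fin n → k := fun i => if (i : ℕ) = j then 1 else 0

theorem comp_ev {m : ℕ} (c : Fin (m + 1) → k) (j : ℕ) (hj : j < m) :
    (comp c).mulVec (ev (m + 1) j) = ev (m + 1) (j + 1) := by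
  funext i
  rw [Matrix.mulVec, dotProduct, Finset.sum_eq_single ⟨j, by omega⟩]
  · simp [ev, Pool.Agent.W345.GK.comp]
    try (intro h; omega)
  · intro b _ hb
    have : (b : ℕ) ≠ j := fun h => hb (Fin.ext h)
    simp [ev, this]
  · intro h
    exact (h (Finset.mem_univ _)).elim

theorem comp_ev_last {m : ℕ} (c : Fin (m + 1) → k) :
    (comp c).mulVec (ev (m + 1) m) = -c := by
  funext i
  rw [Matrix.mulVec, dotProduct, Finset.sum_eq_single (Fin.last m)]
  · simp [ev, Pool.Agent.W345.GK.comp]
  · intro b _ hb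
    have : (b : ℕ) ≠ m := fun h => hb (Fin.ext h)
    simp [ev, this]
  · intro h
    exact (h (Finset.mem_univ _)).elim

theorem comp_pow_ev {m : ℕ} (c : Fin (m + 1) → k) (j : ℕ) (hj : j ≤ m) :
    (comp c ^ j).mulVec (ev (m + 1) 0) = ev (m + 1) j := by
  induction j with
  | zero => simp
  | succ j ih =>
    rw [pow_succ', ← Matrix.mulVec_mulVec, ih (by omega), comp_ev c j (by omega)]

theorem mon_eq {n : ℕ} (c : Fin n → k) : mon c = X ^ n + pol c := rfl

theorem charpoly_comp {n : ℕ} (c : Fin n → k) : (comp c).charpoly = mon c := by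
  rcases n with _ | m
  · rw [mon_eq]
    simp [pol, Matrix.charpoly]
  · have hdeg : (comp c).charpoly.natDegree = m + 1 := by
      rw [Matrix.charpoly_natDegree_eq_dim, Fintype.card_fin]
    have hmonic := Matrix.charpoly_monic (comp c)
    have h1 := Matrix.aeval_self_charpoly (comp c)
    rw [Polynomial.aeval_eq_sum_range, hdeg] at h1
    have h2 : ∀ r : Fin (m + 1), (comp c).charpoly.coeff r = c r := by
      intro r
      have h3 := congrArg (fun M : Matrix (Fin (m + 1)) (Fin (m + 1)) k =>
        M.mulVec (ev (m + 1) 0) r) h1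
      simp only [Matrix.sum_mulVec, Matrix.zero_mulVec, Pi.zero_apply] at h3
      rw [Finset.sum_apply, Finset.sum_range_succ] at h3
      have h4 : ((comp c).charpoly.coeff (m + 1) • (comp c) ^ (m + 1)).mulVec (ev (m + 1) 0) r =
          - c r := by
        have h5 : (comp c).charpoly.coeff (m + 1) = 1 := by
          have := hmonic.coeff_natDegree
          rwa [hdeg] at this
        rw [h5, one_smul, pow_succ', ← Matrix.mulVec_mulVec, comp_pow_ev c m le_rfl, comp_ev_last]
        rfl
      have h6 : ∀ j ∈ range (m + 1), ((comp c).charpoly.coeff j • (comp c) ^ j).mulVec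
          (ev (m + 1) 0) r = if (r : ℕ) = j then (comp c).charpoly.coeff j else 0 := by
        intro j hj
        rw [Matrix.smul_mulVec, comp_pow_ev c j (by have := Finset.mem_range.1 hj; omega)]
        simp [ev]
      rw [h4, Finset.sum_congr rfl h6, Finset.sum_ite_eq, if_pos (Finset.mem_range.2 r.2)] at h3
      linear_combination h3
    ext j
    rw [mon_eq, Polynomial.coeff_add, pol_coeff, Polynomial.coeff_X_pow]
    rcases lt_trichotomy j (m + 1) with h | h | h
    · rw [dif_pos h, if_neg (by omega), zero_add]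
      exact h2 ⟨j, h⟩
    · rw [dif_neg (by omega), if_pos h, add_zero, h]
      have := hmonic.coeff_natDegree
      rwa [hdeg] at this
    · rw [dif_neg (by omega), if_neg (by omega), add_zero]
      exact Polynomial.coeff_eq_zero_of_natDegree_lt (by omega)

end comp

section field

variable {E : Type} [Field E] {n : ℕ}

theorem derivative_charpoly (A : Matrix (Fin n) (Fin n) E) (t : E)
    (h : (Matrix.scalar (Fin n) t - A).det ≠ 0) :
    (derivative A.charpoly).eval t =
      (Matrix.scalar (Fin n) t - A).det * ((Matrix.scalar (Fin n) t - A)⁻¹).trace := by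
  set B := Matrix.scalar (Fin n) t - A with hB
  rw [← Polynomial.taylor_coeff_one]
  have h1 : taylor t A.charpoly = ((A.charmatrix).map (taylorAlgHom t)).det := by
    rw [Matrix.charpoly]
    exact AlgHom.map_det (taylorAlgHom t) A.charmatrix
  have h2 : (A.charmatrix).map (taylorAlgHom t) =
      B.map C * (1 + (X : E[X]) • (B⁻¹).map C) := by
    have h3 : B.map C * (B⁻¹).map (C : E →+* E[X]) = 1 := by
      rw [← Matrix.map_mul, Matrix.mul_nonsing_inv B (isUnit_iff_ne_zero.2 h)]
      simp
    rw [mul_add, mul_one, Matrix.mul_smul, h3]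
    ext i j : 2
    have hT : ∀ p : E[X], taylorAlgHom t p = taylor t p := fun p => rfl
    rw [Matrix.map_apply, Matrix.charmatrix_apply, hT, map_sub, Polynomial.taylor_C,
      Matrix.add_apply, Matrix.map_apply, Matrix.smul_apply, hB, Matrix.sub_apply, map_sub,
      Matrix.scalar_apply, smul_eq_mul]
    by_cases hij : i = j
    · subst hij
      rw [Matrix.diagonal_apply_eq, Matrix.diagonal_apply_eq, Matrix.one_apply_eq,
        Polynomial.taylor_X]
      ring_nf
    · rw [Matrix.diagonal_apply_ne _ hij, Matrix.diagonal_apply_ne _ hij, Matrix.one_apply_ne hij,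
        map_zero, map_zero]
      ring_nf
  rw [h1, h2, Matrix.det_mul]
  have h3 : (B.map (C : E →+* E[X])).det = C B.det := (RingHom.map_det (C : E →+* E[X]) B).symm
  rw [h3, Polynomial.coeff_C_mul, Matrix.coeff_det_one_add_X_smul_one]

/-- the finite expansion of the inverse -/
theorem inv_expand (A : Matrix (Fin n) (Fin n) E) (t : E) (ht : t ≠ 0)
    (h : (Matrix.scalar (Fin n) t - A).det ≠ 0) (M : ℕ) :
    (Matrix.scalar (Fin n) t - A)⁻¹ = ∑ l ∈ range M, (t⁻¹) ^ (l + 1) • A ^ l +
      (t⁻¹) ^ M • ((Matrix.scalar (Fin n) t - A)⁻¹ * A ^ M) := by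
  set B := Matrix.scalar (Fin n) t - A with hB
  have hu : IsUnit B.det := isUnit_iff_ne_zero.2 h
  have hsc : ∀ X : Matrix (Fin n) (Fin n) E, Matrix.scalar (Fin n) t * X = t • X := by
    intro X
    rw [Matrix.scalar_apply, ← Matrix.smul_one_eq_diagonal, smul_mul_assoc, one_mul]
  have key : ∀ M : ℕ, B * ∑ l ∈ range M, (t⁻¹) ^ (l + 1) • A ^ l = 1 - (t⁻¹) ^ M • A ^ M := by
    intro M
    induction M with
    | zero => simp
    | succ M ih =>
      rw [Finset.sum_range_succ, mul_add, ih, Matrix.mul_smul]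
      have h1 : B * A ^ M = t • A ^ M - A ^ (M + 1) := by
        rw [hB, sub_mul, hsc, pow_succ']
      rw [h1, smul_sub, smul_smul, pow_succ, mul_assoc, inv_mul_cancel₀ ht, mul_one]
      abel
  have h2 : B⁻¹ * (B * ∑ l ∈ range M, (t⁻¹) ^ (l + 1) • A ^ l) =
      B⁻¹ * (1 - (t⁻¹) ^ M • A ^ M) := by rw [key M]
  rw [← mul_assoc, Matrix.nonsing_inv_mul B hu, one_mul, mul_sub, mul_one, Matrix.mul_smul] at h2
  rw [h2]
  abel

end field

section ring

variable {F : Type} [Field F]

/-- the valuation ring -/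
def OO (F : Type) [Field F] : Subring (LS F) where
  carrier := {f | Ge 0 f}
  mul_mem' := by
    intro a b ha hb
    have ha' : Ge 0 a := ha
    have hb' : Ge 0 b := hb
    have := ha'.mul hb'
    rw [add_zero] at this
    exact this
  one_mem' := by
    intro j hj
    rw [HahnSeries.coeff_one, if_neg (by omega)]
  add_mem' := by
    intro a b ha hb
    have ha' : Ge 0 a := ha
    have hb' : Ge 0 b := hb
    exact ha'.add hb'
  zero_mem' := ge_zero 0
  neg_mem' := by
    intro a ha
    have ha' : Ge 0 a := ha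
    exact ha'.neg

theorem det_mem {n : ℕ} (A : Matrix (Fin n) (Fin n) (LS F)) (h : ∀ i j, A i j ∈ OO F) :
    A.det ∈ OO F := by
  rw [Matrix.det_apply]
  refine sum_mem fun σ _ => ?_
  rw [Units.smul_def]
  exact zsmul_mem (prod_mem fun i _ => h _ _) _

theorem adj_mem {n : ℕ} (A : Matrix (Fin n) (Fin n) (LS F)) (h : ∀ i j, A i j ∈ OO F) (i j : Fin n) :
    A.adjugate i j ∈ OO F := by
  rw [Matrix.adjugate_apply]
  apply det_mem
  intro a b
  rw [Matrix.updateRow_apply]
  split_ifs
  · rw [Pi.single_apply]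
    split_ifs
    · exact one_mem _
    · exact zero_mem _
  · exact h a b

theorem mul_mem_entries {n : ℕ} (A B : Matrix (Fin n) (Fin n) (LS F)) (hA : ∀ i j, A i j ∈ OO F)
    (hB : ∀ i j, B i j ∈ OO F) (i j : Fin n) : (A * B) i j ∈ OO F := by
  rw [Matrix.mul_apply]
  exact sum_mem fun l _ => mul_mem (hA i l) (hB l j)

theorem pow_mem_entries {n : ℕ} (A : Matrix (Fin n) (Fin n) (LS F)) (hA : ∀ i j, A i j ∈ OO F)
    (M : ℕ) : ∀ i j, (A ^ M) i j ∈ OO F := by
  induction M with
  | zero =>
    intro i j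
    rw [pow_zero, Matrix.one_apply]
    split_ifs
    · exact one_mem _
    · exact zero_mem _
  | succ M ih =>
    rw [pow_succ]
    exact mul_mem_entries _ _ ih hA

/-- the uniformizer `1 / T` -/
noncomputable def ss (F : Type) [Field F] (q : ℕ) : LS F := HahnSeries.single ((q : ℤ) - 1) (-1 : F)

theorem TT_ss (q : ℕ) : TT F q * ss F q = 1 := by
  rw [TT, ss, HahnSeries.single_mul_single]
  have h1 : (1 - (q : ℤ)) + ((q : ℤ) - 1) = 0 := by ring
  have h2 : (-1 : F) * -1 = 1 := by ring
  rw [h1, h2]
  rfl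

theorem TT_ne (q : ℕ) : TT F q ≠ 0 := by
  intro h
  have := TT_ss (F := F) q
  rw [h, zero_mul] at this
  exact zero_ne_one this

theorem TT_inv (q : ℕ) : (TT F q)⁻¹ = ss F q := by
  exact inv_eq_of_mul_eq_one_right (TT_ss q)

theorem ss_pow (q l : ℕ) : ss F q ^ (l + 1) =
    HahnSeries.single (((q : ℤ) - 1) * (l + 1)) ((-1 : F) ^ (l + 1)) := by
  rw [ss, HahnSeries.single_pow]
  congr 1
  rw [nsmul_eq_mul]
  push_cast
  ring_nf

theorem ge_single (m j : ℤ) (a : F) (h : m ≤ j) : Ge m (HahnSeries.single j a : LS F) := by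
  intro i hi
  rw [HahnSeries.coeff_single_of_ne (by omega)]

theorem order_TT (q : ℕ) : (TT F q).order = 1 - (q : ℤ) := by
  rw [TT, HahnSeries.order_single]
  exact neg_ne_zero.2 one_ne_zero

end ring

theorem i6 : S_I1 → S_I6 := by
  intro h1 k F _ _ _ _ n c
  classical
  set q := Fintype.card k with hq
  have hq2 : 2 ≤ q := Fintype.one_lt_card
  have hq2' : (2 : ℤ) ≤ (q : ℤ) := by exact_mod_cast hq2
  set t : LS F := TT F q with ht
  have ht0 : t ≠ 0 := TT_ne q
  -- the embedding of the constants
  let ι : k →+* LS F := (algebraMap F (LS F)).comp (algebraMap k F)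
  have hι : ∀ x : k, ι x = HahnSeries.C (algebraMap k F x) := by
    intro x
    show (algebraMap F (LS F)) ((algebraMap k F) x) = _
    rw [HahnSeries.algebraMap_apply', ← HahnSeries.ofPowerSeries_C]
    rfl
  have hιO : ∀ x : k, ι x ∈ OO F := by
    intro x
    rw [hι, HahnSeries.C_apply]
    exact ge_single 0 0 _ le_rfl
  let A : Matrix (Fin n) (Fin n) (LS F) := (Pool.Agent.W345.GK.comp c).map ι
  have hA : ∀ i j, A i j ∈ OO F := fun i j => hιO _
  have hchar : A.charpoly = (mon c).map ι := by
    rw [← charpoly_comp c]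
    exact Matrix.charpoly_map _ ι
  have hiA : ∀ a : k[X], (iA a : LS F) = (a.map ι).eval t := by
    intro a
    rw [iA_apply, iF, Polynomial.aeval_def, Polynomial.eval₂_map, Polynomial.eval_map]
  have hmonic : (mon c).Monic := by
    rw [← charpoly_comp c]
    exact Matrix.charpoly_monic _
  have hmdeg : (mon c).natDegree = n := by
    rw [← charpoly_comp c, Matrix.charpoly_natDegree_eq_dim, Fintype.card_fin]
  have hm0 : (mon c).map (algebraMap k F) ≠ 0 :=
    (Polynomial.map_ne_zero_iff (algebraMap k F).injective).2 hmonic.ne_zero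
  have hcne : (iA (mon c) : LS F) ≠ 0 := by
    rw [Ne, map_eq_zero_iff _ (iA_inj h1)]
    exact hmonic.ne_zero
  have hcord : (iA (mon c) : LS F).order = -(((q : ℤ) - 1) * n) := by
    have h2 := (h1 k F).2.1 _ hm0
    rw [← iA_apply, Polynomial.natDegree_map, hmdeg] at h2
    exact h2
  set B := Matrix.scalar (Fin n) t - A with hB
  have hdetB : B.det = (iA (mon c) : LS F) := by
    rw [hiA, ← hchar, Matrix.eval_charpoly]
  have hdetB0 : B.det ≠ 0 := by
    rw [hdetB]
    exact hcne
  have hdl : dl q (iA (mon c) : LS F) = (B⁻¹).trace := by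
    have h2 : Dx q (iA (mon c) : LS F) = iA (derivative (mon c)) := by
      rw [iA_apply, (h1 k F).2.2.2.2.1, Polynomial.derivative_map, iA_apply]
    have h3 := derivative_charpoly A t hdetB0
    rw [hchar, Polynomial.derivative_map, ← hiA] at h3
    rw [dl, h2, h3, ← hB, hdetB, mul_div_cancel_left₀ _ hcne]
  -- the matrix `1 - A / T`
  set s : LS F := ss F q with hs
  have hsO : s ∈ OO F := ge_single 0 _ _ (by linarith)
  have hti : t⁻¹ = s := TT_inv q
  let D : Matrix (Fin n) (Fin n) (LS F) := 1 - s • A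
  have hD : ∀ i j, D i j ∈ OO F := by
    intro i j
    show (1 : Matrix (Fin n) (Fin n) (LS F)) i j - s * A i j ∈ OO F
    refine sub_mem ?_ (mul_mem hsO (hA i j))
    rw [Matrix.one_apply]
    split_ifs
    · exact one_mem _
    · exact zero_mem _
  have hBD : B = t • D := by
    show Matrix.scalar (Fin n) t - A = t • (1 - s • A)
    rw [smul_sub, smul_smul, ← hti, mul_inv_cancel₀ ht0, one_smul, Matrix.scalar_apply,
      Matrix.smul_one_eq_diagonal]
  have hdetD : t ^ n * D.det = B.det := by
    rw [hBD, Matrix.det_smul, Fintype.card_fin]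
  have hD0 : D.det ≠ 0 := by
    intro h
    rw [h, mul_zero] at hdetD
    exact hdetB0 hdetD.symm
  have hordD : D.det.order = 0 := by
    have h2 := congrArg HahnSeries.order hdetD
    rw [HahnSeries.order_mul (pow_ne_zero _ ht0) hD0, HahnSeries.order_pow, hdetB, hcord, ht,
      order_TT, nsmul_eq_mul] at h2
    linarith
  have hDinvO : (D.det)⁻¹ ∈ OO F := by
    show Ge 0 _
    rw [ge_iff]
    right
    have h2 := congrArg HahnSeries.order (mul_inv_cancel₀ hD0)
    rw [HahnSeries.order_mul hD0 (inv_ne_zero hD0), hordD, HahnSeries.order_one] at h2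
    linarith
  have hDi : ∀ i j, (D⁻¹) i j ∈ OO F := by
    intro i j
    rw [Matrix.inv_def, Matrix.smul_apply, Ring.inverse_eq_inv']
    exact mul_mem hDinvO (adj_mem D hD i j)
  have hBinv : B⁻¹ = s • D⁻¹ := by
    apply Matrix.inv_eq_left_inv
    rw [hBD, smul_mul_smul_comm, ← hti, inv_mul_cancel₀ ht0, one_smul,
      Matrix.nonsing_inv_mul D (isUnit_iff_ne_zero.2 hD0)]
  have hexp : ∀ M : ℕ, ∃ r ∈ OO F, dl q (iA (mon c) : LS F) =
      ∑ l ∈ range M, HahnSeries.single (((q : ℤ) - 1) * (l + 1))
        ((-1 : F) ^ (l + 1) * algebraMap k F (psm c l)) + s ^ (M + 1) * r := by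
    intro M
    refine ⟨(D⁻¹ * A ^ M).trace, ?_, ?_⟩
    · rw [Matrix.trace]
      exact sum_mem fun i _ => mul_mem_entries _ _ hDi (pow_mem_entries A hA M) i i
    · have h2 := inv_expand A t ht0 hdetB0 M
      rw [← hB, hti] at h2
      rw [hdl]
      conv_lhs => rw [h2]
      rw [Matrix.trace_add, Matrix.trace_sum]
      congr 1
      · refine Finset.sum_congr rfl fun l _ => ?_
        have h3 : A ^ l = ((Pool.Agent.W345.GK.comp c) ^ l).map ι := (Matrix.map_pow _ ι l).symm
        rw [Matrix.trace_smul, h3, smul_eq_mul]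
        have h4 : (((Pool.Agent.W345.GK.comp c) ^ l).map ι).trace = ι (psm c l) := by
          rw [psm, Matrix.trace, Matrix.trace, map_sum]
          rfl
        rw [h4, hι, hs, ss_pow, HahnSeries.C_apply, HahnSeries.single_mul_single, add_zero]
      · rw [Matrix.trace_smul, hBinv, smul_mul_assoc, Matrix.trace_smul, smul_eq_mul, smul_eq_mul,
          pow_succ, mul_assoc]
  have hrem : ∀ (M : ℕ) (r : LS F), r ∈ OO F → Ge ((M : ℤ) + 1) (s ^ (M + 1) * r) := by
    intro M r hr
    have hr' : Ge 0 r := hr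
    have h2 : Ge ((M : ℤ) + 1) (s ^ (M + 1)) := by
      rw [hs, ss_pow]
      apply ge_single
      have : (0 : ℤ) ≤ M := Int.natCast_nonneg M
      nlinarith
    have := h2.mul hr'
    rwa [add_zero] at this
  constructor
  · intro l
    obtain ⟨M, hM⟩ : ∃ M : ℕ, M = (((q : ℤ) - 1) * (l + 1)).natAbs + l + 1 := ⟨_, rfl⟩
    obtain ⟨r, hr, he⟩ := hexp M
    rw [he, HahnSeries.coeff_add, HahnSeries.coeff_sum, Finset.sum_eq_single l]
    · rw [HahnSeries.coeff_single_same, hrem M r hr _ (by
        have h2 := le_abs_self (((q : ℤ) - 1) * (l + 1))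
        rw [hM]
        push_cast
        have : (0 : ℤ) ≤ l := Int.natCast_nonneg l
        linarith), add_zero]
    · intro l' _ hl'
      apply HahnSeries.coeff_single_of_ne
      intro h
      apply hl'
      have h2 : (l : ℤ) + 1 = l' + 1 := mul_left_cancel₀ (by linarith : (q : ℤ) - 1 ≠ 0) h
      have h3 : (l : ℤ) = l' := by linarith
      exact_mod_cast h3.symm
    · intro h
      exact (h (Finset.mem_range.2 (by omega))).elim
  · intro j hj
    obtain ⟨r, hr, he⟩ := hexp j.natAbs
    rw [he, HahnSeries.coeff_add, HahnSeries.coeff_sum, Finset.sum_eq_zero, hrem _ r hr _ (by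
        have h2 := le_abs_self j
        rw [Int.abs_eq_natAbs] at h2
        linarith), add_zero]
    intro l _
    exact HahnSeries.coeff_single_of_ne (hj l)

end Pool.Agent.W672.GK
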